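import Mathlib
import Pool.Agent.V5helper82.EQ.FamExt

/-!
# Null homotopic families are those which extend to rotation invariant families

`G_n = Symp_ct(ℝ²ⁿ)` with the direct limit topology. Write the points of `ℝ^{2(n+1)}` as `(z, w)` with
`z = x₀ + i y₀ ∈ ℂ` and `w ∈ ℝ²ⁿ`. A compact family in `G_n` is null homotopic if and only if it is the
restriction to `{z = 0}` of a family of elements of `G_{n+1}` which commute with the rotations of `z`.
(For a family consisting of one element: `ψ` is isotopic to the identity if and only if it has an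
extension of this kind; so `G_n` is path-connected if and only if all its elements have one, and
it is weakly contractible if and only if all its families over cubes, equal to the identity on the
boundary, have one, equal to the identity over the boundary.)

Proof. A rotation invariant `φ` is of the form `(z, w) ↦ (z Q(|z|, w), B(|z|, w))` by the
preservation of the moment map `|z|²/2`, the maps `B(r, ·)`, `r ≥ 0`, are elements of `G_n`, and they
are a path from the restriction of `φ` to the identity. Conversely, a null homotopic family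
is a product of families `θ` whose differentials have no negative eigenvalues. With the
vector field `X` given by `X((x + θ(x)) / 2) = θ(x) - x` and its compactly supported potential `F`,
the extension is `(z, w) ↦ (z e^{-i c'(s) F(q)}, q + c(s) X(q) / 2)` where `w = q - c(s) X(q) / 2`,
`s = |z|²/2` and `c` is a cut-off function.
-/

set_option autoImplicit false

open Pool.Agent.W71.EC

namespace Pool.Agent.Results.MP_ec5dc5_gt.ExtensionCriterion

universe u

/-- The point of `ℝ^{2(n+1)}` whose first coordinates are `x₀ + i y₀ = z` and whose other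
coordinates are those of `w`. -/
def join {n : ℕ} (z : ℂ) (w : R2 n) : R2 (n + 1) := (Fin.cons z.re w.1, Fin.cons z.im w.2)

/-- The map `(z, w) ↦ (u z, w)`: for `|u| = 1` a rotation of the first coordinate plane. -/
noncomputable def rotate (n : ℕ) (u : ℂ) (p : R2 (n + 1)) : R2 (n + 1) :=
  join (u * ⟨p.1 0, p.2 0⟩) (Fin.tail p.1, Fin.tail p.2)

/-- `φ` commutes with all rotations of the first coordinate plane. -/
def RotationInvariant {n : ℕ} (φ : SympCt (n + 1)) : Prop :=
  ∀ u : ℂ, ‖u‖ = 1 → ∀ p, φ.toEquiv (rotate n u p) = rotate n u (φ.toEquiv p)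

/-- `φ` preserves the subspace `z = 0`, and its restriction to this subspace is `ψ`. -/
def Extends {n : ℕ} (φ : SympCt (n + 1)) (ψ : SympCt n) : Prop :=
  ∀ w, φ.toEquiv (join 0 w) = join 0 (ψ.toEquiv w)

theorem rot_iff {n : ℕ} (φ : SympCt (n + 1)) :
    RotationInvariant φ ↔ Pool.Agent.V5helper82.EQ.Rot φ := by
  constructor
  · exact fun h => Pool.Agent.V5helper82.EQ.rot_of_com h
  · intro h u hu p
    have h1 := h u hu (Pool.Agent.V5helper82.EQ.co n p).1 (Pool.Agent.V5helper82.EQ.co n p).2
    unfold Pool.Agent.V5helper82.EQ.E at h1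
    have h2 := congrArg (Pool.Agent.V5helper82.EQ.co n).symm h1
    rw [ContinuousLinearEquiv.symm_apply_apply, Prod.mk.eta,
      ContinuousLinearEquiv.symm_apply_apply] at h2
    exact h2

theorem ext_iff {n : ℕ} (φ : SympCt (n + 1)) (ψ : SympCt n)
    (h : Pool.Agent.V5helper82.EQ.Rot φ) :
    Extends φ ψ ↔ Pool.Agent.V5helper82.EQ.res φ h = ψ := by
  have h1 : ∀ w, φ.toEquiv (join 0 w) =
      join 0 ((Pool.Agent.V5helper82.EQ.res φ h).toEquiv w) := by
    intro w
    have h2 := Pool.Agent.V5helper82.EQ.E_zero h w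
    unfold Pool.Agent.V5helper82.EQ.E at h2
    have h3 := congrArg (Pool.Agent.V5helper82.EQ.co n).symm h2
    rw [ContinuousLinearEquiv.symm_apply_apply] at h3
    exact h3
  constructor
  · intro h2
    refine SympCt.ext' fun w => ?_
    have h3 := (h1 w).symm.trans (h2 w)
    have h4 := congrArg (Pool.Agent.V5helper82.EQ.co n) h3
    have h5 : ∀ v : R2 n, Pool.Agent.V5helper82.EQ.co n (join 0 v) = (0, v) := fun v =>
      (Pool.Agent.V5helper82.EQ.co n).apply_symm_apply (0, v)
    rw [h5, h5] at h4
    exact congrArg Prod.snd h4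
  · rintro rfl
    exact h1

/-- **The criterion.** -/
theorem result : ∀ (n : ℕ) (C : Type u) [TopologicalSpace C] [CompactSpace C] (A : Set C)
    (f : C(C, SympCt n)), (∀ c ∈ A, f c = one) →
    (f.HomotopicRel (ContinuousMap.const C one) A ↔
      ∃ Φ : C(C, SympCt (n + 1)), (∀ c, RotationInvariant (Φ c) ∧ Extends (Φ c) (f c)) ∧
        ∀ c ∈ A, Φ c = one) := by
  intro n C _ _ A f hA
  rw [Pool.Agent.V5helper82.EQ.null_iff_ext f A hA]
  constructor
  · rintro ⟨Φ, hΦ, hΦA⟩
    refine ⟨Φ, fun c => ?_, hΦA⟩
    obtain ⟨h, h1⟩ := hΦ c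
    exact ⟨(rot_iff _).2 h, (ext_iff _ _ h).2 h1⟩
  · rintro ⟨Φ, hΦ, hΦA⟩
    refine ⟨Φ, fun c => ?_, hΦA⟩
    exact ⟨(rot_iff _).1 (hΦ c).1, (ext_iff _ _ _).1 (hΦ c).2⟩

end Pool.Agent.Results.MP_ec5dc5_gt.ExtensionCriterion
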