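import Mathlib
import Pool.Agent.V5helper82.EQ.ArcHigh

/-!
# Averages over arcs of rotations, and symplectomorphisms with a symmetry of high order

`G = Symp_ct(ℝ^{2(n+1)})` with the direct limit topology; the points of `ℝ^{2(n+1)}` are written as
`(z, w)`, `z ∈ ℂ`, `w ∈ ℝ²ⁿ`, and `R_s (z, w) = (e^{2πis} z, w)`.

(1) Let `f` be a compact family in `G` whose elements commute with `R_{1/k}` (no condition for
`k = 1`). If the averages of the differentials `D(R_{-a} ∘ φ ∘ R_a)(x)` over the arcs `0 ≤ a ≤ τ`,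
`τ ≤ 1/k`, do not reverse `ω` in any direction, then `f` is null homotopic. Nothing is assumed on the
size of the differentials or of the second derivatives.

(2) For every compact subset `𝓕` of `G` there is a `k₀` such that, for all `k ≥ k₀`, every compact
family of elements of `𝓕` which commute with `R_{1/k}` is null homotopic in `G`.

Proof. The averages `φ_τ` of the maps `R_{-a} ∘ φ ∘ R_a`, `0 ≤ a ≤ τ`, are equal to the identity
outside a compact set, but not symplectic; by the hypothesis the forms `(1 - s) ω + s φ_τ^* ω` are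
nondegenerate, and Moser's argument deforms `φ` to `φ_{1/k} ∘ Φ` where `Φ` is the time one map of the
Moser vector field of `φ_{1/k}`. As `φ_{1/k}` commutes with all `R_a`, so does `Φ`, by the
equivariance of the vector field. The families of maps which commute with all `R_a` are null
homotopic (as in the result `RotationCentralizer`). For (2), the differentials change little over
short arcs, and the arcs of length `1/k` are enough.
-/

set_option autoImplicit false

open Pool.Agent.W71.EC

namespace Pool.Agent.Results.MP_ec5dc5_gt.RotationArcs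

/-- The map `R_s : (z, w) ↦ (e^{2πis} z, w)` of `ℝ^{2(n+1)}`, where `z = x₀ + i y₀`. -/
noncomputable def turn {n : ℕ} (s : ℝ) (p : R2 (n + 1)) : R2 (n + 1) :=
  (Fin.cons (Complex.exp ((2 * Real.pi * s : ℝ) * Complex.I) * ⟨p.1 0, p.2 0⟩).re (Fin.tail p.1),
    Fin.cons (Complex.exp ((2 * Real.pi * s : ℝ) * Complex.I) * ⟨p.1 0, p.2 0⟩).im (Fin.tail p.2))

/-- The average over `0 ≤ a ≤ τ` of the differentials at `x` of the maps `R_{-a} ∘ φ ∘ R_a`. -/
noncomputable def arcAverage {n : ℕ} (φ : SympCt (n + 1)) (τ : ℝ) (x v : R2 (n + 1)) :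
    R2 (n + 1) :=
  ∫ s in (0 : ℝ)..1, turn (-(τ * s)) (fderiv ℝ φ.toEquiv (turn (τ * s) x) (turn (τ * s) v))

/-- The map `A` does not reverse `ω` in any direction: there are no `v ≠ 0` and `c ≥ 0` with
`ω(A v, A w) = - c ω(v, w)` for all `w`. -/
def NoReversal {n : ℕ} (A : R2 n → R2 n) : Prop :=
  ¬ ∃ v : R2 n, v ≠ 0 ∧ ∃ c : ℝ, 0 ≤ c ∧ ∀ w : R2 n, omega (A v) (A w) = -c * omega v w

theorem turn_eq {n : ℕ} (s : ℝ) (p : R2 (n + 1)) :
    turn s p = Pool.Agent.V5helper82.EQ.rl n s p := by
  rw [Pool.Agent.V5helper82.EQ.rl_apply]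
  rfl

theorem arc_eq {n : ℕ} (φ : SympCt (n + 1)) (τ : ℝ) (x : R2 (n + 1)) :
    arcAverage φ τ x = Pool.Agent.V5helper82.EQ.arcA φ τ x := by
  funext v
  unfold arcAverage Pool.Agent.V5helper82.EQ.arcA
  simp only [turn_eq]

/-- **Averages over arcs of rotations, and symmetries of high order.** -/
theorem result (n : ℕ) :
    (∀ (C : Type) [TopologicalSpace C] [CompactSpace C] (f : C(C, SympCt (n + 1))) (k : ℕ),
      1 ≤ k → (∀ c p, (f c).toEquiv (turn (1 / k) p) = turn (1 / k) ((f c).toEquiv p)) →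
      (∀ c (τ : ℝ), 0 < τ → τ ≤ 1 / k → ∀ x, NoReversal (arcAverage (f c) τ x)) →
      f.HomotopicRel (ContinuousMap.const C one) {c | f c = one}) ∧
    (∀ 𝓕 : Set (SympCt (n + 1)), IsCompact 𝓕 → ∃ k₀ : ℕ, ∀ k : ℕ, k₀ ≤ k →
      ∀ (C : Type) [TopologicalSpace C] [CompactSpace C] (f : C(C, SympCt (n + 1))),
      (∀ c, f c ∈ 𝓕) →
      (∀ c p, (f c).toEquiv (turn (1 / k) p) = turn (1 / k) ((f c).toEquiv p)) →
      f.HomotopicRel (ContinuousMap.const C one) {c | f c = one}) := by
  constructor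
  · intro C _ _ f k hk hs h
    refine Pool.Agent.V5helper82.EQ.arc_main C f hk (fun c p => ?_) (fun c τ h0 h1 x => ?_)
    · rw [← turn_eq, ← turn_eq]
      exact hs c p
    · rw [← arc_eq]
      exact h c τ h0 h1 x
  · intro 𝓕 h𝓕
    obtain ⟨k₀, h⟩ := Pool.Agent.V5helper82.EQ.high_order 𝓕 h𝓕
    refine ⟨k₀, fun k hk C _ _ f hf hs => h k hk C f hf fun c p => ?_⟩
    rw [← turn_eq, ← turn_eq]
    exact hs c p

end Pool.Agent.Results.MP_ec5dc5_gt.RotationArcs
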