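import Mathlib
import Pool.Agent.V5helper82.EQ.Contract

/-!
# The centralizer of an irrational rotation of one coordinate plane is contractible

`G = Symp_ct(ℝ^{2(n+1)})` with the direct limit topology. Write the points of `ℝ^{2(n+1)}` as `(z, w)`
with `z = x₀ + i y₀ ∈ ℂ` and `w ∈ ℝ²ⁿ`. The elements of `G` which commute with an irrational rotation
of `z` (and possibly with further maps `(z, w) ↦ (A z, g w)`, `A` orthogonal) form a contractible
group, for every `n`. The contraction is through group homomorphisms, and it does not enlarge the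
support in the discs `w = const`.

Proof. Such a `φ` commutes with all rotations of `z`, so that it preserves the moment map `|z|²/2`,
and `φ(z, w) = (z Q(|z|, w), B(|z|, w))` with smooth functions `Q` (of modulus `1`) and `B` which are
even in the first variable. The maps `φ_σ(z, w) = (z Q(ρ, w), B(ρ, w))`, `ρ = √(|z|² + σ²)`, are again
compactly supported symplectomorphisms: for `z ≠ 0` they are conjugate to `φ` by the symplectic
embedding `(z, w) ↦ (z √(|z|² + σ²) / |z|, w)`. They commute with the same maps, `φ ↦ φ_σ` is a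
homomorphism, `φ_0 = φ`, and `φ_σ` is the identity if `σ` is large.
-/

set_option autoImplicit false

open Pool.Agent.W71.EC

namespace Pool.Agent.Results.MP_ec5dc5_gt.RotationCentralizer

/-- The point of `ℝ^{2(n+1)}` whose first coordinates are `x₀ + i y₀ = z` and whose other
coordinates are those of `w`. -/
def join {n : ℕ} (z : ℂ) (w : R2 n) : R2 (n + 1) := (Fin.cons z.re w.1, Fin.cons z.im w.2)

/-- The map `(z, w) ↦ (u z, w)`: for `|u| = 1` a rotation of the first coordinate plane. -/
noncomputable def rotate (n : ℕ) (u : ℂ) (p : R2 (n + 1)) : R2 (n + 1) :=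
  join (u * ⟨p.1 0, p.2 0⟩) (Fin.tail p.1, Fin.tail p.2)

/-- The continuous maps of the form `(z, w) ↦ (A z, g w)`, where `A` is an orthogonal
transformation of the plane and `g` is any map. -/
def IsProductMap {n : ℕ} (h : R2 (n + 1) → R2 (n + 1)) : Prop :=
  Continuous h ∧ ∃ (A : ℂ ≃ₗᵢ[ℝ] ℂ) (g : R2 n → R2 n), ∀ z w, h (join z w) = join (A z) (g w)

/-- The iterates of the elements of `S`. -/
def Iterates {X : Type} (S : Set (X → X)) : Set (X → X) := {f | ∃ g ∈ S, ∃ k : ℕ, f = g^[k]}

/-- All rotations of the first coordinate plane are pointwise limits of iterates of elements of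
`S` (the closure is for the topology of pointwise convergence). -/
def GeneratesRotations {n : ℕ} (S : Set (R2 (n + 1) → R2 (n + 1))) : Prop :=
  ∀ u : ℂ, ‖u‖ = 1 → rotate n u ∈ closure (Iterates S)

/-- The elements of `Symp_ct(ℝ^{2(n+1)})` which commute with all elements of `S`; as a topological
space it carries the subspace topology. -/
def Centralizer {n : ℕ} (S : Set (R2 (n + 1) → R2 (n + 1))) : Set (SympCt (n + 1)) :=
  {φ | ∀ h ∈ S, ∀ p, φ.toEquiv (h p) = h (φ.toEquiv p)}

/-- Sets whose sections `w = const` are unions of discs with centre `0`, i.e. which contain with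
`(z, w)` all `(z', w)` with `|z'| ≤ |z|`. -/
def DiscFibred {n : ℕ} (U : Set (R2 (n + 1))) : Prop :=
  ∀ (z z' : ℂ) (w : R2 n), join z w ∈ U → ‖z'‖ ≤ ‖z‖ → join z' w ∈ U

/-- There is a contraction of the centralizer of `S` to the identity, through group
homomorphisms, which keeps the support in every set with discs as sections. -/
def HomContraction {n : ℕ} (S : Set (R2 (n + 1) → R2 (n + 1))) : Prop :=
  ∃ H : unitInterval × Centralizer S → Centralizer S, Continuous H ∧ (∀ φ, H (0, φ) = φ) ∧
    (∀ φ, (H (1, φ)).1 = one) ∧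
    (∀ t (φ ψ χ : Centralizer S), χ.1 = comp φ.1 ψ.1 →
      (H (t, χ)).1 = comp (H (t, φ)).1 (H (t, ψ)).1) ∧
    ∀ U : Set (R2 (n + 1)), DiscFibred U → ∀ (t : unitInterval) (φ : Centralizer S),
      φ.1 ∈ supportedIn U → (H (t, φ)).1 ∈ supportedIn U

theorem rotate_eq {n : ℕ} (u : ℂ) : rotate n u = Pool.Agent.V5helper82.EQ.rt n u := rfl

theorem com_iterates {n : ℕ} {S : Set (R2 (n + 1) → R2 (n + 1))} {φ : SympCt (n + 1)}
    (h : φ ∈ Centralizer S) {f : R2 (n + 1) → R2 (n + 1)} (hf : f ∈ Iterates S) :
    Pool.Agent.V5helper82.EQ.Com φ f := by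
  obtain ⟨g, hg, k, rfl⟩ := hf
  induction k with
  | zero => exact fun p => rfl
  | succ k ih =>
    intro p
    rw [Function.iterate_succ_apply', Function.iterate_succ_apply', h g hg, ih]

/-- irrational rotations -/
theorem generates_of_irrational (n : ℕ) (α : ℝ) (hα : Irrational α) :
    GeneratesRotations {rotate n (Complex.exp (2 * Real.pi * α * Complex.I))} := by
  intro u hu
  have hd : DenseRange (fun k : ℕ => k • ((α : ℝ) : AddCircle (1 : ℝ))) := by
    have : Fact ((0 : ℝ) < 1) := ⟨one_pos⟩
    rw [← denseRange_zsmul_iff_nsmul, AddCircle.denseRange_zsmul_coe_iff, div_one]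
    exact hα
  -- the angle
  obtain ⟨x, hx⟩ : ∃ x : AddCircle (1 : ℝ), (AddCircle.toCircle x : ℂ) = u := by
    obtain ⟨c, hc⟩ : ∃ c : Circle, (c : ℂ) = u := ⟨⟨u, mem_sphere_zero_iff_norm.2 hu⟩, rfl⟩
    refine ⟨(AddCircle.homeomorphCircle (T := (1 : ℝ)) one_ne_zero).symm c, ?_⟩
    rw [← AddCircle.homeomorphCircle_apply one_ne_zero, Homeomorph.apply_symm_apply, hc]
  have hc : Continuous (fun x : AddCircle (1 : ℝ) => rotate n (AddCircle.toCircle x : ℂ)) := by
    refine continuous_pi fun p => ?_
    have h1 : Continuous (fun v : ℂ => rotate n v p) := by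
      rw [show (fun v : ℂ => rotate n v p) = fun v => (Pool.Agent.V5helper82.EQ.co n).symm
        (v * (Pool.Agent.V5helper82.EQ.co n p).1, (Pool.Agent.V5helper82.EQ.co n p).2) from rfl]
      exact (Pool.Agent.V5helper82.EQ.co n).symm.continuous.comp
        ((continuous_id.mul continuous_const).prodMk continuous_const)
    exact h1.comp (continuous_subtype_val.comp AddCircle.continuous_toCircle)
  have hx' : x ∈ closure (Set.range (fun k : ℕ => k • ((α : ℝ) : AddCircle (1 : ℝ)))) := hd x
  have h2 := image_closure_subset_closure_image hc ⟨x, hx', rfl⟩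
  simp only [hx] at h2
  refine closure_mono ?_ h2
  rintro _ ⟨_, ⟨k, rfl⟩, rfl⟩
  refine ⟨_, rfl, k, ?_⟩
  have h3 : ∀ (v : ℂ) (k : ℕ), rotate n (v ^ k) = (rotate n v)^[k] := by
    intro v k
    induction k with
    | zero =>
      funext p
      rw [pow_zero, rotate_eq]
      unfold Pool.Agent.V5helper82.EQ.rt
      rw [one_mul, Prod.mk.eta, ContinuousLinearEquiv.symm_apply_apply]
      rfl
    | succ k ih =>
      funext p
      rw [Function.iterate_succ_apply', ← ih, rotate_eq, rotate_eq, rotate_eq]
      unfold Pool.Agent.V5helper82.EQ.rt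
      rw [ContinuousLinearEquiv.apply_symm_apply, pow_succ']
      simp only [mul_assoc]
  have h4 : ((AddCircle.toCircle (k • ((α : ℝ) : AddCircle (1 : ℝ))) : Circle) : ℂ) =
      Complex.exp (2 * Real.pi * α * Complex.I) ^ k := by
    rw [AddCircle.toCircle_nsmul, AddCircle.toCircle_apply_mk]
    simp [Circle.coe_exp]
  change rotate n _ = _
  rw [h4, h3]

/-- **Contractibility of the centralizers.** -/
theorem result :
    (∀ (n : ℕ) (S : Set (R2 (n + 1) → R2 (n + 1))), (∀ h ∈ S, IsProductMap h) →
      GeneratesRotations S → ContractibleSpace (Centralizer S) ∧ HomContraction S) ∧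
    ∀ (n : ℕ) (α : ℝ), Irrational α →
      GeneratesRotations {rotate n (Complex.exp (2 * Real.pi * α * Complex.I))} := by
  refine ⟨fun n S hS hG => ?_, generates_of_irrational⟩
  -- enlarge `S` by the rotations
  have hR : ∀ φ ∈ Centralizer S, ∀ u : ℂ, ‖u‖ = 1 →
      Pool.Agent.V5helper82.EQ.Com φ (rotate n u) := fun φ hφ u hu =>
    Pool.Agent.V5helper82.EQ.com_closure (S := Iterates S) (fun g hg => com_iterates hφ hg)
      (hG u hu)
  have hR' : ∀ φ ∈ Pool.Agent.V5helper82.EQ.Fx S, Pool.Agent.V5helper82.EQ.Rot φ := fun φ hφ =>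
    Pool.Agent.V5helper82.EQ.rot_of_com (hR φ hφ)
  exact ⟨Pool.Agent.V5helper82.EQ.contractible (fun h hh => (hS h hh).1)
    (fun h hh => (hS h hh).2) hR', Pool.Agent.V5helper82.EQ.exists_contraction
    (fun h hh => (hS h hh).1) (fun h hh => (hS h hh).2) hR'⟩

end Pool.Agent.Results.MP_ec5dc5_gt.RotationCentralizer
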