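import Mathlib
import Pool.Agent.V5helper82.SB.Crit
import Pool.Agent.V5helper82.SB.Alex

/-!
# The Sobolev threshold for isotopies of compactly supported symplectomorphisms

`G = Symp_ct(ℝ²ⁿ)`, `n ≥ 1`, with the direct limit topology; `k ≥ 0` is an integer and
`1 ≤ p < ∞` is real. A family `f : X → G` is `W^{k,p}`-continuous if, locally on `X`, its elements
are supported in one compact set, and `f x → f x₀` in the `W^{k,p}` norm as `x → x₀`.

* If `(k - 1) p < 2 n`, then `G` is contractible for `W^{k,p}`-continuous families.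
* If `(k - 1) p ≥ 2 n`, then a `W^{k,p}`-continuous homotopy between two continuous compact families
  in `G` can be replaced by a continuous one. So the path components of `G` do not change when the
  `C^∞` topology is replaced by the `W^{k,p}` topology, and the maps of homotopy groups are
  injective.
* More generally, homotopies which are only `L¹`-continuous can be replaced by continuous ones if
  their elements have uniformly small mean oscillation, at the scales up to some `R > 0`.

Proof. The first assertion is the Alexander trick: `‖D^k(t φ(·/t))‖_p = t^{1-k+2n/p} ‖D^k φ‖_p`.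
For the second, the Gagliardo–Nirenberg–Sobolev inequality reduces to `k = 2`, `p = 2 n`. By
compactness the energies `∫_Q |D²φ|^{2n}` of the maps of the homotopy on small cubes `Q` are
uniformly small, and so is the mean oscillation, by the Poincaré inequality. The maps of the
homotopy `h`, mollified at a fixed small scale, depend continuously on the parameters in the
`C^∞` topology and tame the standard complex structure. One path of mollified maps, from `f` to
its mollification, through linear interpolations of the mollifications of finitely many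
`h(·, t_i)`, to the mollification of `g` and to `g`, is corrected by Moser's argument.
-/

set_option autoImplicit false

open Pool.Agent.W71.EC MeasureTheory
open scoped NNReal ENNReal Topology

namespace Pool.Agent.Results.MP_ec5dc5_gt.SobolevThreshold

variable {n : ℕ}

/-- The difference of two elements of `Symp_ct(ℝ²ⁿ)`, a map with compact support. -/
def gap (φ ψ : SympCt n) (x : R2 n) : R2 n := φ.toEquiv x - ψ.toEquiv x

/-- The norm of the `j`-th derivative of `u` at `x`. -/
noncomputable def derivNorm (j : ℕ) (u : R2 n → R2 n) (x : R2 n) : ℝ := ‖iteratedFDeriv ℝ j u x‖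

/-- The `W^{k,p}` distance of two elements of `Symp_ct(ℝ²ⁿ)`: the sum of the `L^p` norms of the
derivatives of orders `0, …, k` of the difference. -/
noncomputable def sobolevDist (k : ℕ) (p : ℝ≥0) (φ ψ : SympCt n) : ℝ≥0∞ :=
  ∑ j ∈ Finset.range (k + 1), eLpNorm (derivNorm j (gap φ ψ)) p volume

/-- `W^{k,p}`-continuous families: locally on `X` the supports are contained in one compact set,
and the family is continuous for the `W^{k,p}` distance. -/
def SobolevContinuous (k : ℕ) (p : ℝ≥0) {X : Type} [TopologicalSpace X] (f : X → SympCt n) :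
    Prop :=
  ∀ x₀, (∃ K : Set (R2 n), IsCompact K ∧ ∀ᶠ x in 𝓝 x₀, f x ∈ supportedIn K) ∧
    Filter.Tendsto (fun x => sobolevDist k p (f x) (f x₀)) (𝓝 x₀) (𝓝 0)

/-- The square of the Euclidean norm of a vector of `ℝ²ⁿ`. -/
def sq (v : R2 n) : ℝ := ∑ i, (v.1 i ^ 2 + v.2 i ^ 2)

/-- The directional derivative `D_v φ (x)`. -/
noncomputable def dv (φ : SympCt n) (v x : R2 n) : R2 n := fderiv ℝ φ.toEquiv x v

/-- The average of `D_v φ` over the cube with centre `x` and half-side `r` (the balls of `R2 n` are
cubes with sides parallel to the axes). -/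
noncomputable def cubeMean (φ : SympCt n) (r : ℝ) (x v : R2 n) : R2 n :=
  ⨍ y in Metric.ball x r, dv φ v y

/-- The directional derivatives of `φ` have mean square oscillation at most `θ` on the cubes of
half-side at most `R`: on every such cube `Q` and for every `v`, the average over `Q` of
`|D_v φ - (D_v φ)_Q|²` is at most `θ |v|²`. -/
def SmallOsc (θ R : ℝ) (φ : SympCt n) : Prop :=
  ∀ r : ℝ, 0 < r → r ≤ R → ∀ x v : R2 n,
    ⨍ y in Metric.ball x r, sq (dv φ v y - cubeMean φ r x v) ≤ θ * sq v

/-- The `L¹` distance. -/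
noncomputable def distOne (φ ψ : SympCt n) : ℝ := ∫ x, ‖gap φ ψ x‖

/-- Families which are continuous in the `C^∞` topology are `W^{k,p}`-continuous. -/
def Embedding (n : ℕ) : Prop :=
  ∀ (k : ℕ) (p : ℝ≥0) (X : Type) [TopologicalSpace X] [CompactSpace X] (f : C(X, SympCt n)),
    SobolevContinuous k p f

/-- Below the critical exponent `G` is contractible, by one contraction `H`. -/
def Subcritical (n : ℕ) : Prop :=
  ∃ H : unitInterval → SympCt n → SympCt n,
    (∀ φ, H 1 φ = φ) ∧ (∀ φ, H 0 φ = one) ∧ (∀ t, H t one = one) ∧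
    ∀ (k : ℕ) (p : ℝ≥0), 1 ≤ p → ((k : ℝ) - 1) * p < 2 * n →
      ∀ (X : Type) [TopologicalSpace X] (f : X → SympCt n), SobolevContinuous k p f →
        SobolevContinuous k p (fun z : unitInterval × X => H z.1 (f z.2))

/-- From the critical exponent on, homotopies can be replaced by continuous ones. -/
def Supercritical (n : ℕ) : Prop :=
  ∀ (k : ℕ) (p : ℝ≥0), 1 ≤ p → 2 * n ≤ ((k : ℝ) - 1) * p →
    ∀ (C : Type) [TopologicalSpace C] [CompactSpace C] (f g : C(C, SympCt n))
      (h : C × unitInterval → SympCt n), SobolevContinuous k p h →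
      (∀ c, h (c, 0) = f c) → (∀ c, h (c, 1) = g c) →
      f.HomotopicRel g {c | ∀ t, h (c, t) = one}

/-- From the critical exponent on, the path components are those of the `C^∞` topology. -/
def PathComponents (n : ℕ) : Prop :=
  ∀ (k : ℕ) (p : ℝ≥0), 1 ≤ p → 2 * n ≤ ((k : ℝ) - 1) * p → ∀ φ ψ : SympCt n,
    Joined φ ψ ↔ ∃ γ : unitInterval → SympCt n, SobolevContinuous k p γ ∧ γ 0 = φ ∧ γ 1 = ψ

/-- `L¹`-continuous homotopies with uniformly small mean oscillation can be replaced by continuous
ones. -/
def OscillationHomotopies (n : ℕ) : Prop :=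
  ∀ (θ R : ℝ), θ < 1 → 0 < R → ∀ (C : Type) [TopologicalSpace C] [CompactSpace C]
    (f g : C(C, SympCt n)) (h : C × unitInterval → SympCt n),
    (∃ K : Set (R2 n), IsCompact K ∧ ∀ z, h z ∈ supportedIn K) →
    (∀ z₀, Filter.Tendsto (fun z => distOne (h z) (h z₀)) (𝓝 z₀) (𝓝 0)) →
    (∀ z, SmallOsc θ R (h z)) → (∀ c, h (c, 0) = f c) → (∀ c, h (c, 1) = g c) →
    f.HomotopicRel g {c | ∀ t, h (c, t) = one}

theorem sobolevDist_eq (k : ℕ) (p : ℝ≥0) (φ ψ : SympCt n) :
    sobolevDist k p φ ψ = Pool.Agent.V5helper82.SB.sobDist k p φ ψ := by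
  unfold sobolevDist Pool.Agent.V5helper82.SB.sobDist
  exact Finset.sum_congr rfl fun j _ => eLpNorm_norm _

theorem cont_iff (k : ℕ) (p : ℝ≥0) {X : Type} [TopologicalSpace X] (f : X → SympCt n) :
    SobolevContinuous k p f ↔ Pool.Agent.V5helper82.SB.SobCont k p f := by
  unfold SobolevContinuous Pool.Agent.V5helper82.SB.SobCont
  simp only [sobolevDist_eq]

/-- **The Sobolev threshold.** -/
theorem result (n : ℕ) (hn : 0 < n) : Embedding n ∧ Subcritical n ∧ Supercritical n ∧
    PathComponents n ∧ OscillationHomotopies n := by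
  have hE : Embedding n := fun k p X _ _ f =>
    (cont_iff k p _).2 (Pool.Agent.V5helper82.SB.smooth_sob f k p)
  have hS : Supercritical n := fun k p hp hk C _ _ f g h hh hf hg =>
    Pool.Agent.V5helper82.SB.crit hn hp hk f g h ((cont_iff k p _).1 hh) hf hg
  refine ⟨hE, ?_, hS, ?_, ?_⟩
  · exact ⟨fun t φ => Pool.Agent.V5helper82.SB.al t φ,
      fun φ => Pool.Agent.V5helper82.SB.al_one φ,
      fun φ => Pool.Agent.V5helper82.SB.al_zero φ,
      fun t => Pool.Agent.V5helper82.SB.al_id t,
      fun k p hp hk X _ f hf =>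
        (cont_iff k p _).2 (Pool.Agent.V5helper82.SB.alex hp hk ((cont_iff k p _).1 hf))⟩
  · intro k p hp hk φ ψ
    constructor
    · rintro ⟨γ⟩
      exact ⟨γ, hE k p unitInterval ⟨γ, γ.continuous⟩, γ.source, γ.target⟩
    · rintro ⟨γ, hγ, h0, h1⟩
      have hh : SobolevContinuous k p (fun z : Unit × unitInterval => γ z.2) := by
        intro z₀
        obtain ⟨⟨K, hK, h2⟩, h3⟩ := hγ z₀.2
        exact ⟨⟨K, hK, (continuous_snd.tendsto z₀).eventually h2⟩,
          h3.comp (continuous_snd.tendsto z₀)⟩
      obtain ⟨F⟩ := hS k p hp hk Unit (ContinuousMap.const Unit φ) (ContinuousMap.const Unit ψ)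
        _ hh (fun _ => h0) (fun _ => h1)
      refine ⟨⟨⟨fun t => F (t, ()), F.continuous.comp (continuous_id.prodMk continuous_const)⟩,
        ?_, ?_⟩⟩
      · exact F.apply_zero ()
      · exact F.apply_one ()
  · intro θ R hθ hR C _ _ f g h hK hL hosc hf hg
    obtain ⟨K, hK, h1⟩ := hK
    obtain ⟨r, hr⟩ := hK.isBounded.subset_closedBall (0 : R2 n)
    obtain ⟨m, hm⟩ := exists_nat_ge r
    refine Pool.Agent.V5helper82.SB.osc_path hθ hR f g h (m := m) (fun z x hx => ?_) hL hosc hf hg
    exact h1 z x fun h2 => hx (Metric.closedBall_subset_closedBall hm (hr h2))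

end Pool.Agent.Results.MP_ec5dc5_gt.SobolevThreshold
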